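import Pool.Agent.helper68.FY.Spec

/-!
# Row fy:FMD
-/

set_option autoImplicit false

namespace Pool.Agent.helper68.FY

theorem FMD_coord (p : ℕ) [Fact p.Prime] (x y : ZMod p × ZMod p) (hx : x.1 ≠ x.2) :
    ∃ A B A' B' : ℤ, ∀ g ∈ Lam p x y, ∃ u v : ℤ,
      g 0 = A * g 2 + B * g 3 + p * u ∧ g 1 = A' * g 2 + B' * g 3 + p * v := by
  have hd : x.1 - x.2 ≠ 0 := sub_ne_zero.2 hx
  obtain ⟨A, hA⟩ := ZMod.intCast_surjective ((y.1 * x.1 - y.2 * x.2) / (x.1 - x.2))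
  obtain ⟨B, hB⟩ := ZMod.intCast_surjective ((y.1 - y.2) / (x.1 - x.2))
  obtain ⟨A', hA'⟩ := ZMod.intCast_surjective
    (y.1 * x.1 - (y.1 * x.1 - y.2 * x.2) / (x.1 - x.2) * x.1)
  obtain ⟨B', hB'⟩ := ZMod.intCast_surjective (y.1 - (y.1 - y.2) / (x.1 - x.2) * x.1)
  refine ⟨A, B, A', B', ?_⟩
  intro g hg
  obtain ⟨h1, h2⟩ : rp p g x y := hg
  unfold rl at h1 h2
  have h0 : (g 0 : ZMod p) = A * (g 2 : ZMod p) + B * (g 3 : ZMod p) := by
    rw [hA, hB]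
    have h3 : (g 0 : ZMod p) * (x.1 - x.2) =
        (y.1 * x.1 - y.2 * x.2) * (g 2 : ZMod p) + (y.1 - y.2) * (g 3 : ZMod p) := by
      linear_combination h1 - h2
    field_simp
    linear_combination h3
  have h1' : (g 1 : ZMod p) = A' * (g 2 : ZMod p) + B' * (g 3 : ZMod p) := by
    rw [hA', hB', ← hA, ← hB]
    linear_combination h1 - x.1 * h0
  have e0 : (p : ℤ) ∣ g 0 - (A * g 2 + B * g 3) := by
    rw [← ZMod.intCast_zmod_eq_zero_iff_dvd]
    push_cast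
    linear_combination h0
  have e1 : (p : ℤ) ∣ g 1 - (A' * g 2 + B' * g 3) := by
    rw [← ZMod.intCast_zmod_eq_zero_iff_dvd]
    push_cast
    linear_combination h1'
  obtain ⟨u, hu⟩ := e0
  obtain ⟨v, hv⟩ := e1
  exact ⟨u, v, by linarith, by linarith⟩

theorem FMD : FMD_stmt := by
  intro p _ x y hx
  obtain ⟨A, B, A', B', hcoord⟩ := FMD_coord p x y hx
  constructor
  · intro a ha b hb c hc i j k
    obtain ⟨ua, va, ha0, ha1⟩ := hcoord a ha
    obtain ⟨ub, vb, hb0, hb1⟩ := hcoord b hb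
    obtain ⟨uc, vc, hc0, hc1⟩ := hcoord c hc
    rw [← ZMod.intCast_zmod_eq_zero_iff_dvd]
    have f0 : ∀ (g : V4) (u : ℤ), g 0 = A * g 2 + B * g 3 + p * u →
        ((g 0 : ℤ) : ZMod p) = A * (g 2 : ZMod p) + B * (g 3 : ZMod p) := by
      intro g u h
      rw [h]
      push_cast
      simp
    have f1 : ∀ (g : V4) (u : ℤ), g 1 = A' * g 2 + B' * g 3 + p * u →
        ((g 1 : ℤ) : ZMod p) = A' * (g 2 : ZMod p) + B' * (g 3 : ZMod p) := by
      intro g u h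
      rw [h]
      push_cast
      simp
    have ga0 := f0 a ua ha0
    have gb0 := f0 b ub hb0
    have gc0 := f0 c uc hc0
    have ga1 := f1 a va ha1
    have gb1 := f1 b vb hb1
    have gc1 := f1 c vc hc1
    have key : ∀ i j k : Fin 4, ((m3 a b c i j k : ℤ) : ZMod p) = 0 := by
      intro i j k
      unfold m3
      push_cast
      fin_cases i <;> fin_cases j <;> fin_cases k <;>
        simp only [Fin.zero_eta, Fin.mk_one, Fin.reduceFinMk, ga0, gb0, gc0, ga1, gb1, gc1] <;> ring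
    exact key i j k
  · intro a ha b hb c hc d hd
    obtain ⟨ua, va, ha0, ha1⟩ := hcoord a ha
    obtain ⟨ub, vb, hb0, hb1⟩ := hcoord b hb
    obtain ⟨uc, vc, hc0, hc1⟩ := hcoord c hc
    obtain ⟨ud, vd, hd0, hd1⟩ := hcoord d hd
    refine ⟨d4 ![ua, va, a 2, a 3] ![ub, vb, b 2, b 3] ![uc, vc, c 2, c 3] ![ud, vd, d 2, d 3], ?_⟩
    have q0 : ∀ s t u v : ℤ, (![s, t, u, v] : V4) 0 = s := fun _ _ _ _ => rfl
    have q1 : ∀ s t u v : ℤ, (![s, t, u, v] : V4) 1 = t := fun _ _ _ _ => rfl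
    have q2 : ∀ s t u v : ℤ, (![s, t, u, v] : V4) 2 = u := fun _ _ _ _ => rfl
    have q3 : ∀ s t u v : ℤ, (![s, t, u, v] : V4) 3 = v := fun _ _ _ _ => rfl
    simp only [d4, pl, q0, q1, q2, q3, ha0, ha1, hb0, hb1, hc0, hc1, hd0, hd1]
    ring

end Pool.Agent.helper68.FY
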